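import Mathlib

/-!
# MP_6194d2_nt: the stable 2-adic class count is not monotone in k

`μ_69 = 34` and `μ_71 = 32`, so `k ↦ μ_k` is not non-decreasing.

Method.  For odd `K` one has `K! S(j,K) ≡ f(j) = ∑_{i odd} C(K,i) i^j (mod 2^j)`.  On a residue class
`a + 2^m t` the function `f` is expanded in binomial coefficients of `t` with coefficients
`BL a m r = ∑ C(K,i) i^a (i^(2^m) - 1)^r`.  A finite list of residue classes (the leaves of a binary
tree) is given; on each of them the 2-adic sizes of these coefficients show either that the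
valuation is constant, or that `ν(f(x) - f(y)) = ν(x - y) + c`, so that at every deeper level exactly
one subclass is non-constant.
-/

set_option autoImplicit false

namespace Pool.Agent.Results.MP_6194d2_nt.NotMonotone

/-- The class `[n]_t`. -/
def cls (n t : ℕ) : Set ℕ := {j | max n t ≤ j ∧ j ≡ n [MOD t]}

/-- `j ↦ ν₂(S(j,k))` is constant on `X`. -/
def ConstOn (k : ℕ) (X : Set ℕ) : Prop :=
  ∃ c : ℕ, (fun j => padicValNat 2 (Nat.stirlingSecond j k)) '' X = {c}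

/-- The set `𝒩_{k,m}`. -/
def NN (k m : ℕ) : Set ℕ := {n | k ≤ n ∧ n < k + 2 ^ m ∧ ¬ ConstOn k (cls n (2 ^ m))}

/-- `μ_k` exists and equals `μ`. -/
def IsMu (k μ : ℕ) : Prop := ∃ M, ∀ m, M ≤ m → (NN k m).ncard = μ

/-- alternating sum -/
def T (n K : ℕ) : ℤ := ∑ i ∈ Finset.range (K + 1), (-1) ^ (K + i) * (K.choose i : ℤ) * (i : ℤ) ^ n

theorem T_zero (K : ℕ) : T 0 K = if K = 0 then 1 else 0 := by
  unfold T
  have h := @Int.alternating_sum_range_choose K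
  have : ∑ i ∈ Finset.range (K + 1), (-1 : ℤ) ^ (K + i) * (K.choose i : ℤ) * (i : ℤ) ^ 0
      = (-1) ^ K * ∑ i ∈ Finset.range (K + 1), ((-1 : ℤ) ^ i * (K.choose i : ℤ)) := by
    rw [Finset.mul_sum]
    refine Finset.sum_congr rfl fun i _ => ?_
    rw [pow_add]; ring
  rw [this, h]
  split_ifs with hK
  · subst hK; simp
  · simp

theorem choose_id (K i : ℕ) : (i : ℤ) * ((K + 1).choose i : ℤ)
    = ((K : ℤ) + 1) * (((K + 1).choose i : ℤ) - (K.choose i : ℤ)) := by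
  cases i with
  | zero => simp
  | succ i =>
    have h1 := Nat.add_one_mul_choose_eq K i
    have h2 := Nat.choose_succ_succ K i
    have h1' : ((K : ℤ) + 1) * (K.choose i : ℤ) = ((K + 1).choose (i + 1) : ℤ) * ((i : ℤ) + 1) := by
      exact_mod_cast h1
    have h2' : ((K + 1).choose (i + 1) : ℤ) = (K.choose i : ℤ) + (K.choose (i + 1) : ℤ) := by
      exact_mod_cast h2
    push_cast
    rw [h2'] at h1' ⊢
    linear_combination -h1'

theorem T_succ (n K : ℕ) : T (n + 1) (K + 1) = ((K : ℤ) + 1) * (T n (K + 1) + T n K) := by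
  have hK : T n K = ∑ i ∈ Finset.range (K + 1 + 1), (-1) ^ (K + i) * (K.choose i : ℤ) * (i : ℤ) ^ n := by
    rw [Finset.sum_range_succ, Nat.choose_succ_self]
    simp [T]
  rw [hK]
  unfold T
  rw [← Finset.sum_add_distrib, Finset.mul_sum]
  refine Finset.sum_congr rfl fun i _ => ?_
  have h := choose_id K i
  rw [show K + 1 + i = K + i + 1 by ring, pow_succ (-1 : ℤ), pow_succ (i : ℤ)]
  linear_combination ((-1 : ℤ) ^ (K + i) * (-1) * (i : ℤ) ^ n) * h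

theorem T_zero_right (n : ℕ) : T (n + 1) 0 = 0 := by
  simp [T]

theorem explicit (n : ℕ) : ∀ K : ℕ, ((K.factorial * Nat.stirlingSecond n K : ℕ) : ℤ) = T n K := by
  induction n with
  | zero =>
    intro K
    rw [T_zero]
    cases K with
    | zero => simp
    | succ K => simp
  | succ n ih =>
    intro K
    cases K with
    | zero => simp [T_zero_right]
    | succ K =>
      rw [T_succ, ← ih (K + 1), ← ih K, Nat.stirlingSecond_succ_succ, Nat.factorial_succ]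
      push_cast
      ring

theorem sum_range_two_mul (N : ℕ) (F : ℕ → ℤ) :
    ∑ i ∈ Finset.range (2 * N), F i = ∑ s ∈ Finset.range N, (F (2 * s) + F (2 * s + 1)) := by
  induction N with
  | zero => simp
  | succ N ih =>
    rw [show 2 * (N + 1) = 2 * N + 1 + 1 by ring, Finset.sum_range_succ, Finset.sum_range_succ, ih,
      Finset.sum_range_succ]
    ring

/-- the odd part -/
def fO (h j : ℕ) : ℕ := ∑ s ∈ Finset.range (h + 1), (2 * h + 1).choose (2 * s + 1) * (2 * s + 1) ^ j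

theorem explicit_mod (h j : ℕ) :
    (((2 * h + 1).factorial * Nat.stirlingSecond j (2 * h + 1) : ℕ) : ℤ) ≡ (fO h j : ℤ) [ZMOD 2 ^ j] := by
  rw [explicit]
  unfold T fO
  rw [show 2 * h + 1 + 1 = 2 * (h + 1) by ring, sum_range_two_mul]
  push_cast
  refine (Int.modEq_iff_dvd.2 ?_)
  rw [← Finset.sum_sub_distrib]
  refine Finset.dvd_sum fun s _ => ?_
  have e1 : (-1 : ℤ) ^ (2 * h + 1 + 2 * s) = -1 := by
    rw [show 2 * h + 1 + 2 * s = 2 * (h + s) + 1 by ring, pow_succ, pow_mul]; simp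
  have e2 : (-1 : ℤ) ^ (2 * h + 1 + (2 * s + 1)) = 1 := by
    rw [show 2 * h + 1 + (2 * s + 1) = 2 * (h + s + 1) by ring, pow_mul]; simp
  rw [e1, e2, mul_pow]
  refine ⟨((2 * h + 1).choose (2 * s) : ℤ) * (s : ℤ) ^ j, ?_⟩
  ring

/-- `∑ c · i^a · (i^(2^m) - 1)^r` over the list of pairs `(c, i)`. -/
def BL (l : List (ℕ × ℕ)) (a m r : ℕ) : ℕ :=
  (l.map fun p => p.1 * p.2 ^ a * (p.2 ^ (2 ^ m) - 1) ^ r).sum

theorem BL_nil (a m r : ℕ) : BL [] a m r = 0 := rfl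
theorem BL_cons (p : ℕ × ℕ) (l : List (ℕ × ℕ)) (a m r : ℕ) :
    BL (p :: l) a m r = p.1 * p.2 ^ a * (p.2 ^ (2 ^ m) - 1) ^ r + BL l a m r := by
  simp [BL]

theorem BL_expand (l : List (ℕ × ℕ)) (hl : ∀ p ∈ l, 1 ≤ p.2) (a m q t : ℕ) :
    BL l (a + 2 ^ m * t) m q = ∑ r ∈ Finset.range (t + 1), t.choose r * BL l a m (q + r) := by
  induction l with
  | nil => simp [BL_nil]
  | cons p l ih =>
    have hp : 1 ≤ p.2 := hl p (by simp)
    have ih' := ih (fun x hx => hl x (by simp [hx]))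
    simp only [BL_cons]
    rw [ih']
    simp only [mul_add, Finset.sum_add_distrib]
    congr 1
    have hd : p.2 ^ (2 ^ m) = (p.2 ^ (2 ^ m) - 1) + 1 := by
      have : 1 ≤ p.2 ^ (2 ^ m) := Nat.one_le_pow _ _ hp
      omega
    have h2 : p.2 ^ (2 ^ m * t) = ∑ r ∈ Finset.range (t + 1), (p.2 ^ (2 ^ m) - 1) ^ r * t.choose r := by
      rw [pow_mul]
      conv_lhs => rw [hd]
      rw [add_pow]
      simp
    rw [pow_add, h2, Finset.mul_sum, Finset.mul_sum, Finset.sum_mul]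
    refine Finset.sum_congr rfl fun r _ => ?_
    rw [pow_add]
    ring

theorem odd_pow_two_pow (i m : ℕ) (hi : Odd i) (hm : 1 ≤ m) :
    2 ^ (m + 2) ∣ i ^ (2 ^ m) - 1 := by
  suffices h : ∃ t, i ^ (2 ^ m) = 1 + 2 ^ (m + 2) * t by
    obtain ⟨t, ht⟩ := h
    exact ⟨t, by rw [ht]; simp⟩
  induction m, hm using Nat.le_induction with
  | base =>
    obtain ⟨s, rfl⟩ := hi
    have h2 : 2 ∣ s * (s + 1) := (Nat.even_mul_succ_self s).two_dvd
    obtain ⟨u, hu⟩ := h2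
    refine ⟨u, ?_⟩
    have : (2 * s + 1) ^ (2 ^ 1) = 1 + 4 * (s * (s + 1)) := by ring
    rw [this, hu]; ring
  | succ m hm ih =>
    obtain ⟨t, ht⟩ := ih
    refine ⟨t + 2 ^ (m + 1) * t ^ 2, ?_⟩
    rw [pow_succ 2 m, pow_mul, ht]
    ring

theorem BL_dvd (l : List (ℕ × ℕ)) (hl : ∀ p ∈ l, Odd p.2) (a m r : ℕ) (hm : 1 ≤ m) :
    2 ^ ((m + 2) * r) ∣ BL l a m r := by
  induction l with
  | nil => simp [BL_nil]
  | cons p l ih =>
    rw [BL_cons]
    refine dvd_add ?_ (ih fun x hx => hl x (by simp [hx]))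
    refine Dvd.dvd.mul_left ?_ _
    rw [pow_mul]
    exact pow_dvd_pow_of_dvd (odd_pow_two_pow p.2 m (hl p (by simp)) hm) r

/-- certificate for a constant leaf -/
theorem const_leaf (l : List (ℕ × ℕ)) (hl : ∀ p ∈ l, Odd p.2) (a m v R : ℕ) (hm : 1 ≤ m)
    (h0 : BL l a m 0 % 2 ^ (v + 1) = 2 ^ v)
    (h1 : ∀ r, 1 ≤ r → r < R → 2 ^ (v + 1) ∣ BL l a m r)
    (hR : v + 1 ≤ (m + 2) * R) (t : ℕ) :
    BL l (a + 2 ^ m * t) m 0 ≡ 2 ^ v [MOD 2 ^ (v + 1)] := by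
  have hl1 : ∀ p ∈ l, 1 ≤ p.2 := fun p hp => (hl p hp).pos
  have h2 : ∀ r, 1 ≤ r → 2 ^ (v + 1) ∣ BL l a m r := by
    intro r hr
    by_cases hrR : r < R
    · exact h1 r hr hrR
    · push Not at hrR
      exact dvd_trans (pow_dvd_pow 2 (le_trans hR (Nat.mul_le_mul_left _ hrR))) (BL_dvd l hl a m r hm)
  rw [BL_expand l hl1, Finset.sum_range_succ']
  have h3 : 2 ^ (v + 1) ∣ ∑ k ∈ Finset.range t, t.choose (k + 1) * BL l a m (0 + (k + 1)) := by
    refine Finset.dvd_sum fun k _ => ?_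
    exact Dvd.dvd.mul_left (h2 _ (by omega)) _
  have h4 : BL l a m 0 ≡ 2 ^ v [MOD 2 ^ (v + 1)] := by
    unfold Nat.ModEq
    rw [h0, Nat.mod_eq_of_lt]
    exact Nat.pow_lt_pow_right (by norm_num) (by omega)
  have h5 : ∑ k ∈ Finset.range t, t.choose (k + 1) * BL l a m (0 + (k + 1)) ≡ 0 [MOD 2 ^ (v + 1)] :=
    (Nat.modEq_zero_iff_dvd).2 h3
  simpa using h5.add h4

theorem choose_dvd (s q e : ℕ) (hq : 1 ≤ q) (hs : 2 ^ e ∣ s) :
    2 ^ e ∣ 2 ^ (Nat.log 2 q) * s.choose q := by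
  rcases Nat.eq_zero_or_pos s with rfl | hs0
  · rw [Nat.choose_eq_zero_of_lt (by omega)]; simp
  obtain ⟨s', rfl⟩ : ∃ s', s = s' + 1 := ⟨s - 1, by omega⟩
  obtain ⟨q', rfl⟩ : ∃ q', q = q' + 1 := ⟨q - 1, by omega⟩
  have h1 := Nat.add_one_mul_choose_eq s' q'
  have h2 : 2 ^ e ∣ (s' + 1).choose (q' + 1) * (q' + 1) := by
    rw [← h1]; exact Dvd.dvd.mul_right hs _
  obtain ⟨b, c, hc, hbc⟩ := Nat.exists_eq_two_pow_mul_odd (n := q' + 1) (by omega)
  have hb : b ≤ Nat.log 2 (q' + 1) := by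
    apply Nat.le_log_of_pow_le (by norm_num)
    rw [hbc]
    exact Nat.le_mul_of_pos_right _ hc.pos
  have h3 : 2 ^ e ∣ 2 ^ b * (s' + 1).choose (q' + 1) := by
    have h4 : 2 ^ e ∣ (2 ^ b * (s' + 1).choose (q' + 1)) * c := by
      have : (s' + 1).choose (q' + 1) * (q' + 1) = (2 ^ b * (s' + 1).choose (q' + 1)) * c := by
        rw [mul_comm (2 ^ b) _, mul_assoc, ← hbc]
      rwa [← this]
    have hcop : Nat.Coprime (2 ^ e) c := Nat.Coprime.pow_left _ ((Nat.coprime_two_left).2 hc)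
    exact hcop.dvd_of_dvd_mul_right h4
  exact dvd_trans h3 (Nat.mul_dvd_mul_right (pow_dvd_pow 2 hb) _)

/-- certificate for a leaf with exactly one zero -/
theorem zero_leaf (l : List (ℕ × ℕ)) (hl : ∀ p ∈ l, Odd p.2) (a m w Q : ℕ) (hm : 1 ≤ m)
    (h1 : BL l a m 1 % 2 ^ (w + 1) = 2 ^ w)
    (h2 : ∀ q, 2 ≤ q → q < Q → 2 ^ (w + 1 + Nat.log 2 q) ∣ BL l a m q)
    (hQ : w + 1 ≤ (m + 1) * Q) (t e u : ℕ) (hu : Odd u) :
    ∃ D, Odd D ∧ BL l (a + 2 ^ m * (t + 2 ^ e * u)) m 0 = BL l (a + 2 ^ m * t) m 0 + 2 ^ (w + e) * D := by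
  have hl1 : ∀ p ∈ l, 1 ≤ p.2 := fun p hp => (hl p hp).pos
  have h3 : ∀ q, 2 ≤ q → 2 ^ (w + 1 + Nat.log 2 q) ∣ BL l a m q := by
    intro q hq
    by_cases hqQ : q < Q
    · exact h2 q hq hqQ
    · push Not at hqQ
      refine dvd_trans (pow_dvd_pow 2 ?_) (BL_dvd l hl a m q hm)
      have e1 : Nat.log 2 q ≤ q := (Nat.log_lt_self 2 (by omega)).le
      have e2 : (m + 1) * Q ≤ (m + 1) * q := Nat.mul_le_mul_left _ hqQ
      nlinarith
  -- values at the shifted base point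
  set x := a + 2 ^ m * t with hx
  have hx1 : ∃ E, BL l x m 1 = 2 ^ w * (2 * E + 1) := by
    rw [hx, BL_expand l hl1, Finset.sum_range_succ']
    have h4 : 2 ^ (w + 1) ∣ ∑ k ∈ Finset.range t, t.choose (k + 1) * BL l a m (1 + (k + 1)) := by
      refine Finset.dvd_sum fun k _ => Dvd.dvd.mul_left ?_ _
      exact dvd_trans (pow_dvd_pow 2 (by omega)) (h3 (1 + (k + 1)) (by omega))
    obtain ⟨E1, hE1⟩ := h4
    have h5 := Nat.div_add_mod (BL l a m 1) (2 ^ (w + 1))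
    rw [h1] at h5
    refine ⟨E1 + BL l a m 1 / 2 ^ (w + 1), ?_⟩
    rw [hE1]
    simp only [Nat.choose_zero_right, one_mul, add_zero]
    rw [← h5]
    have : (2 ^ (w + 1) * (BL l a m 1 / 2 ^ (w + 1)) + 2 ^ w) / 2 ^ (w + 1) = BL l a m 1 / 2 ^ (w + 1) := by
      rw [h5]
    rw [this]
    ring
  have hxq : ∀ q, 2 ≤ q → 2 ^ (w + 1 + Nat.log 2 q) ∣ BL l x m q := by
    intro q hq
    rw [hx, BL_expand l hl1]
    refine Finset.dvd_sum fun k _ => Dvd.dvd.mul_left ?_ _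
    refine dvd_trans (pow_dvd_pow 2 ?_) (h3 (q + k) (by omega))
    have : Nat.log 2 q ≤ Nat.log 2 (q + k) := Nat.log_mono_right (by omega)
    omega
  obtain ⟨E, hE⟩ := hx1
  obtain ⟨u', rfl⟩ := hu
  set s := 2 ^ e * (2 * u' + 1) with hs
  have hs1 : 1 ≤ s := by
    rw [hs]; exact Nat.mul_pos (by positivity) (by omega)
  obtain ⟨s', hs'⟩ : ∃ s', s = s' + 1 := ⟨s - 1, by omega⟩
  have hexp : a + 2 ^ m * (t + s) = x + 2 ^ m * s := by rw [hx]; ring
  rw [hexp, BL_expand l hl1 x m 0 s, Finset.sum_range_succ']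
  have h6 : ∑ k ∈ Finset.range s, s.choose (k + 1) * BL l x m (0 + (k + 1))
      = (∑ k ∈ Finset.range s', s.choose (k + 2) * BL l x m (k + 2)) + s * BL l x m 1 := by
    conv_lhs => rw [hs', Finset.sum_range_succ']
    rw [← hs']
    simp [add_assoc]
  have h7 : 2 ^ (w + e + 1) ∣ ∑ k ∈ Finset.range s', s.choose (k + 2) * BL l x m (k + 2) := by
    refine Finset.dvd_sum fun k _ => ?_
    have h8 := choose_dvd s (k + 2) e (by omega) ⟨_, hs⟩
    have h9 := hxq (k + 2) (by omega)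
    obtain ⟨c1, hc1⟩ := h8
    obtain ⟨c2, hc2⟩ := h9
    refine ⟨c1 * c2, ?_⟩
    rw [hc2]
    calc s.choose (k + 2) * (2 ^ (w + 1 + Nat.log 2 (k + 2)) * c2)
        = (2 ^ Nat.log 2 (k + 2) * s.choose (k + 2)) * 2 ^ (w + 1) * c2 := by rw [pow_add]; ring
      _ = (2 ^ e * c1) * 2 ^ (w + 1) * c2 := by rw [hc1]
      _ = _ := by ring
  obtain ⟨c, hc⟩ := h7
  refine ⟨2 * c + (2 * u' + 1) * (2 * E + 1), ?_, ?_⟩
  · refine Even.add_odd (by simp) ?_
    exact Odd.mul ⟨u', rfl⟩ ⟨E, rfl⟩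
  · rw [h6, hc, hE]
    simp only [Nat.choose_zero_right, one_mul, add_zero]
    rw [hs]
    ring

theorem stirling_pos (n : ℕ) : ∀ k, k ≤ n → 0 < Nat.stirlingSecond (n + 1) (k + 1) := by
  induction n with
  | zero =>
    intro k hk
    obtain rfl : k = 0 := by omega
    decide
  | succ n ih =>
    intro k hk
    rw [Nat.stirlingSecond_succ_succ]
    cases k with
    | zero =>
      have := ih 0 (by omega)
      positivity
    | succ k =>
      have := ih k (by omega)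
      positivity

/-- zero leaf -/
def ZL (f : ℕ → ℕ) (a m c : ℕ) : Prop :=
  2 ^ (m + c) ∣ f a ∧ ∀ t e u, Odd u →
    ∃ D, Odd D ∧ f (a + 2 ^ m * (t + 2 ^ e * u)) = f (a + 2 ^ m * t) + 2 ^ (m + c + e) * D

/-- constant leaf -/
def CL (f : ℕ → ℕ) (a m v : ℕ) : Prop :=
  ∀ t, f (a + 2 ^ m * t) ≡ 2 ^ v [MOD 2 ^ (v + 1)]

section
variable (K : ℕ) (f : ℕ → ℕ) (hK : 1 ≤ K)
  (hG : ∀ j, K.factorial * Nat.stirlingSecond j K ≡ f j [MOD 2 ^ j])
include hK hG

theorem dvd_iff (j s : ℕ) (hj : K ≤ j) (hs : s ≤ j) :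
    2 ^ s ∣ f j ↔ s ≤ padicValNat 2 K.factorial + padicValNat 2 (Nat.stirlingSecond j K) := by
  have hpos : 0 < Nat.stirlingSecond j K := by
    obtain ⟨j', rfl⟩ : ∃ j', j = j' + 1 := ⟨j - 1, by omega⟩
    obtain ⟨K', rfl⟩ : ∃ K', K = K' + 1 := ⟨K - 1, by omega⟩
    exact stirling_pos j' K' (by omega)
  have hf : K.factorial ≠ 0 := Nat.factorial_ne_zero K
  rw [← padicValNat.mul hf hpos.ne', ← padicValNat_dvd_iff_le (Nat.mul_ne_zero hf hpos.ne')]
  exact ((hG j).of_dvd (pow_dvd_pow 2 hs)).dvd_iff (dvd_refl _) |>.symm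

theorem const_of (n m v : ℕ) (hn : K ≤ n) (hv : v + 1 ≤ 2 ^ m)
    (h : ∀ s, 2 ^ v ∣ f (n + 2 ^ m * s) ∧ ¬ 2 ^ (v + 1) ∣ f (n + 2 ^ m * s)) :
    ConstOn K (cls n (2 ^ m)) := by
  refine ⟨v - padicValNat 2 K.factorial, ?_⟩
  ext x
  simp only [Set.mem_image, Set.mem_singleton_iff]
  have key : ∀ j ∈ cls n (2 ^ m), padicValNat 2 (Nat.stirlingSecond j K) = v - padicValNat 2 K.factorial := by
    intro j hj
    obtain ⟨hj1, hj2⟩ := hj
    have hnj : n ≤ j := le_trans (le_max_left _ _) hj1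
    have hmj : 2 ^ m ≤ j := le_trans (le_max_right _ _) hj1
    obtain ⟨s, hs⟩ : ∃ s, j = n + 2 ^ m * s := by
      obtain ⟨s, hs⟩ := (Nat.modEq_iff_dvd' hnj).1 hj2.symm
      exact ⟨s, by omega⟩
    have h1 := h s
    rw [← hs] at h1
    rw [dvd_iff K f hK hG j v (by omega) (by omega), dvd_iff K f hK hG j (v + 1) (by omega) (by omega)] at h1
    omega
  constructor
  · rintro ⟨j, hj, rfl⟩
    exact key j hj
  · rintro rfl
    refine ⟨n + 2 ^ m, ⟨?_, ?_⟩, key _ ⟨?_, ?_⟩⟩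
    · exact max_le (by omega) (by omega)
    · simp [Nat.ModEq]
    · exact max_le (by omega) (by omega)
    · simp [Nat.ModEq]

theorem const_leaf_const (a ml v m n : ℕ) (h : CL f a ml v) (hm : ml ≤ m) (hv : v + 1 ≤ 2 ^ m)
    (hn : K ≤ n) (hna : n % 2 ^ ml = a) : ConstOn K (cls n (2 ^ m)) := by
  refine const_of K f hK hG n m v hn hv fun s => ?_
  have hn' : n = a + 2 ^ ml * (n / 2 ^ ml) := by
    rw [← hna]; exact (Nat.mod_add_div _ _).symm
  obtain ⟨d, rfl⟩ := Nat.exists_eq_add_of_le hm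
  have h1 : n + 2 ^ (ml + d) * s = a + 2 ^ ml * (n / 2 ^ ml + 2 ^ d * s) := by
    conv_lhs => rw [hn']
    rw [pow_add]; ring
  have h2 := h (n / 2 ^ ml + 2 ^ d * s)
  rw [← h1] at h2
  constructor
  · refine (h2.of_dvd (pow_dvd_pow 2 (Nat.le_succ v))).dvd_iff (dvd_refl _) |>.2 (dvd_refl _)
  · intro h3
    have h4 := (h2.dvd_iff (dvd_refl _)).1 h3
    have := Nat.le_of_dvd (by positivity) h4
    rw [pow_succ] at this
    have h5 : 0 < 2 ^ v := by positivity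
    omega

omit hK hG in
theorem ZL_step (a ml c m n s : ℕ) (h : ZL f a ml c) (hm : ml ≤ m)
    (hna : n % 2 ^ ml = a) : ∃ D, f (n + 2 ^ m * s) = f n + 2 ^ (m + c) * D ∧ (Odd s → Odd D) := by
  rcases Nat.eq_zero_or_pos s with rfl | hs
  · exact ⟨0, by simp, by simp⟩
  obtain ⟨e, u, hu, rfl⟩ := Nat.exists_eq_two_pow_mul_odd hs.ne'
  have hn' : n = a + 2 ^ ml * (n / 2 ^ ml) := by
    rw [← hna]; exact (Nat.mod_add_div _ _).symm
  obtain ⟨d, rfl⟩ := Nat.exists_eq_add_of_le hm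
  have h1 : n + 2 ^ (ml + d) * (2 ^ e * u) = a + 2 ^ ml * (n / 2 ^ ml + 2 ^ (d + e) * u) := by
    conv_lhs => rw [hn']
    rw [pow_add, pow_add]; ring
  obtain ⟨D, hD, hD2⟩ := h.2 (n / 2 ^ ml) (d + e) u hu
  rw [← h1, ← hn'] at hD2
  refine ⟨2 ^ e * D, ?_, ?_⟩
  · rw [hD2]; congr 1; rw [pow_add, pow_add, pow_add, pow_add]; ring
  · intro hodd
    have : e = 0 := by
      by_contra he
      obtain ⟨e', rfl⟩ : ∃ e', e = e' + 1 := ⟨e - 1, by omega⟩
      rw [pow_succ] at hodd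
      rw [Nat.odd_mul, Nat.odd_mul] at hodd
      exact absurd hodd.1.2 (by decide)
    subst this
    simpa using hD

theorem zero_leaf_const (a ml c m n : ℕ) (h : ZL f a ml c) (hm : ml ≤ m) (hv : m + c + 1 ≤ 2 ^ m)
    (hn : K ≤ n) (hna : n % 2 ^ ml = a) (hnd : ¬ 2 ^ (m + c) ∣ f n) : ConstOn K (cls n (2 ^ m)) := by
  have hfn : f n ≠ 0 := by
    intro h0; rw [h0] at hnd; exact hnd (dvd_zero _)
  set v := padicValNat 2 (f n) with hvdef
  have hv1 : 2 ^ v ∣ f n := pow_padicValNat_dvd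
  have hv2 : ¬ 2 ^ (v + 1) ∣ f n := pow_succ_padicValNat_not_dvd hfn
  have hv3 : v + 1 ≤ m + c := by
    by_contra hcon
    exact hnd (dvd_trans (pow_dvd_pow 2 (by omega)) hv1)
  refine const_of K f hK hG n m v hn (by omega) fun s => ?_
  obtain ⟨D, hD, -⟩ := ZL_step f a ml c m n s h hm hna
  rw [hD]
  have h1 : 2 ^ (v + 1) ∣ 2 ^ (m + c) * D := Dvd.dvd.mul_right (pow_dvd_pow 2 hv3) _
  constructor
  · exact dvd_add hv1 (dvd_trans (pow_dvd_pow 2 (Nat.le_succ v)) h1)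
  · intro h2
    exact hv2 ((Nat.dvd_add_left h1).1 h2)

theorem zero_leaf_nonconst (a ml c m n : ℕ) (h : ZL f a ml c) (hm : ml ≤ m) (hv : m + c + 1 ≤ 2 ^ m)
    (hn : K ≤ n) (hna : n % 2 ^ ml = a) (hnd : 2 ^ (m + c) ∣ f n) : ¬ ConstOn K (cls n (2 ^ m)) := by
  rintro ⟨c0, hc0⟩
  have hmem : ∀ s, 1 ≤ s → n + 2 ^ m * s ∈ cls n (2 ^ m) := by
    intro s hs
    have : 2 ^ m * 1 ≤ 2 ^ m * s := Nat.mul_le_mul_left _ hs
    refine ⟨max_le (by omega) (by omega), ?_⟩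
    simp [Nat.ModEq]
  have hval : ∀ s, 1 ≤ s → padicValNat 2 (Nat.stirlingSecond (n + 2 ^ m * s) K) = c0 := by
    intro s hs
    have : padicValNat 2 (Nat.stirlingSecond (n + 2 ^ m * s) K) ∈
        (fun j => padicValNat 2 (Nat.stirlingSecond j K)) '' cls n (2 ^ m) := ⟨_, hmem s hs, rfl⟩
    rw [hc0] at this
    exact this
  have hdiv : ∀ s, 1 ≤ s → (2 ^ (m + c + 1) ∣ f (n + 2 ^ m * s) ↔ m + c + 1 ≤ padicValNat 2 K.factorial + c0) := by
    intro s hs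
    have : 2 ^ m * 1 ≤ 2 ^ m * s := Nat.mul_le_mul_left _ hs
    rw [dvd_iff K f hK hG _ _ (by omega) (by omega), hval s hs]
  obtain ⟨D, hD, hD2⟩ := ZL_step f a ml c m n 1 h hm hna
  have hD2' := hD2 (by decide)
  have hna2 : (n + 2 ^ m * 1) % 2 ^ ml = a := by
    obtain ⟨d, rfl⟩ := Nat.exists_eq_add_of_le hm
    rw [pow_add, mul_assoc, Nat.add_mul_mod_self_left, hna]
  obtain ⟨D', hE, hE2⟩ := ZL_step f a ml c m (n + 2 ^ m * 1) 1 h hm hna2
  have hE2' := hE2 (by decide)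
  rw [show n + 2 ^ m * 1 + 2 ^ m * 1 = n + 2 ^ m * 2 by ring] at hE
  obtain ⟨F, hF⟩ := hnd
  have e1 : f (n + 2 ^ m * 1) = 2 ^ (m + c) * (F + D) := by rw [hD, hF]; ring
  have e2 : f (n + 2 ^ m * 2) = 2 ^ (m + c) * (F + D + D') := by rw [hE, e1]; ring
  have i1 := hdiv 1 (le_refl _)
  have i2 := hdiv 2 (by norm_num)
  rw [e1, pow_succ, Nat.mul_dvd_mul_iff_left (by positivity)] at i1
  rw [e2, pow_succ, Nat.mul_dvd_mul_iff_left (by positivity)] at i2
  have i3 : 2 ∣ F + D ↔ 2 ∣ F + D + D' := i1.trans i2.symm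
  obtain ⟨D1, rfl⟩ := hE2'
  omega

omit hK hG in
theorem zero_leaf_exists (a ml c : ℕ) (ha : a < 2 ^ ml) (h : ZL f a ml c) (m : ℕ) (hm : ml ≤ m) :
    ∃ n, K ≤ n ∧ n < K + 2 ^ m ∧ n % 2 ^ ml = a ∧ 2 ^ (m + c) ∣ f n := by
  induction m, hm using Nat.le_induction with
  | base =>
    have hM : 0 < 2 ^ ml := by positivity
    set M := 2 ^ ml with hMdef
    have h1 := Nat.div_add_mod (K + M - 1 - a) M
    have h2 := Nat.mod_lt (K + M - 1 - a) hM
    set t := (K + M - 1 - a) / M with ht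
    refine ⟨a + M * t, by omega, by omega, ?_, ?_⟩
    · rw [Nat.add_mul_mod_self_left, Nat.mod_eq_of_lt ha]
    · obtain ⟨D, hD, -⟩ := ZL_step f a ml c ml a t h (le_refl _) (Nat.mod_eq_of_lt ha)
      rw [hMdef, hD]
      exact dvd_add h.1 (Dvd.intro _ rfl)
  | succ m hm ih =>
    obtain ⟨n, h1, h2, h3, h4⟩ := ih
    obtain ⟨F, hF⟩ := h4
    obtain ⟨D, hD, hD2⟩ := ZL_step f a ml c m n 1 h hm h3
    obtain ⟨D1, rfl⟩ := hD2 (by decide)
    rcases Nat.even_or_odd' F with ⟨F', hF' | hF'⟩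
    · refine ⟨n, h1, by rw [pow_succ]; omega, h3, ⟨F', ?_⟩⟩
      rw [hF, hF', show m + 1 + c = m + c + 1 by ring, pow_succ]; ring
    · refine ⟨n + 2 ^ m * 1, by omega, by rw [pow_succ]; omega, ?_, ⟨F' + D1 + 1, ?_⟩⟩
      · obtain ⟨d, rfl⟩ := Nat.exists_eq_add_of_le hm
        rw [pow_add, mul_assoc, Nat.add_mul_mod_self_left, h3]
      · rw [hD, hF, hF', show m + 1 + c = m + c + 1 by ring, pow_succ]; ring

omit hK hG in
theorem zero_leaf_unique_aux (a ml c m n n' : ℕ) (h : ZL f a ml c) (hm : ml ≤ m)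
    (hn : n % 2 ^ ml = a) (hn' : n' % 2 ^ ml = a) (hlt : n < n') (hlt2 : n' < n + 2 ^ m)
    (h1 : 2 ^ (m + c) ∣ f n) (h2 : 2 ^ (m + c) ∣ f n') : False := by
  have hmod : n ≡ n' [MOD 2 ^ ml] := by rw [Nat.ModEq, hn, hn']
  obtain ⟨s, hs⟩ := (Nat.modEq_iff_dvd' hlt.le).1 hmod
  have hs0 : s ≠ 0 := by rintro rfl; omega
  obtain ⟨e, u, hu, rfl⟩ := Nat.exists_eq_two_pow_mul_odd hs0
  have hn1 : n = a + 2 ^ ml * (n / 2 ^ ml) := by
    rw [← hn]; exact (Nat.mod_add_div _ _).symm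
  obtain ⟨D, hD, hD2⟩ := h.2 (n / 2 ^ ml) e u hu
  have h3 : a + 2 ^ ml * (n / 2 ^ ml + 2 ^ e * u) = n' := by
    rw [mul_add, ← add_assoc, ← hn1]; omega
  rw [h3, ← hn1] at hD2
  have h4 : ml + e < m := by
    by_contra hcon
    push Not at hcon
    have : 2 ^ m ≤ 2 ^ ml * (2 ^ e * u) := by
      calc 2 ^ m ≤ 2 ^ (ml + e) := Nat.pow_le_pow_right (by norm_num) hcon
        _ = 2 ^ ml * (2 ^ e * 1) := by rw [pow_add]; ring
        _ ≤ _ := Nat.mul_le_mul_left _ (Nat.mul_le_mul_left _ hu.pos)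
    omega
  rw [hD2] at h2
  have h5 := (Nat.dvd_add_right h1).1 h2
  have h6 : 2 ^ (ml + c + e) * 2 ∣ 2 ^ (ml + c + e) * D := by
    rw [← pow_succ]
    exact dvd_trans (pow_dvd_pow 2 (by omega)) h5
  have h7 := (Nat.mul_dvd_mul_iff_left (by positivity)).1 h6
  obtain ⟨D1, rfl⟩ := hD
  omega

theorem count (Z : Finset (ℕ × ℕ × ℕ)) (C : List (ℕ × ℕ × ℕ))
    (hZ : ∀ z ∈ Z, ZL f z.1 z.2.1 z.2.2) (hC : ∀ z ∈ C, CL f z.1 z.2.1 z.2.2)
    (hZlt : ∀ z ∈ Z, z.1 < 2 ^ z.2.1)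
    (hpart : ∀ n, (Z.filter (fun z => n % 2 ^ z.2.1 = z.1)).card = 1 ∨ ∃ z ∈ C, n % 2 ^ z.2.1 = z.1)
    (M : ℕ) (hM1 : ∀ m, M ≤ m → ∀ z ∈ Z, z.2.1 ≤ m ∧ m + z.2.2 + 1 ≤ 2 ^ m)
    (hM2 : ∀ m, M ≤ m → ∀ z ∈ C, z.2.1 ≤ m ∧ z.2.2 + 1 ≤ 2 ^ m) :
    IsMu K Z.card := by
  classical
  refine ⟨M, fun m hm => ?_⟩
  have hfin : NN K m = ((Finset.Ico K (K + 2 ^ m)).filter fun n => ¬ ConstOn K (cls n (2 ^ m)) : Finset ℕ) := by
    ext n
    simp [NN, and_assoc]
  rw [hfin, Set.ncard_coe_finset]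
  set S := (Finset.Ico K (K + 2 ^ m)).filter fun n => ¬ ConstOn K (cls n (2 ^ m)) with hS
  have key := Finset.sum_card_bipartiteAbove_eq_sum_card_bipartiteBelow
    (fun (n : ℕ) (z : ℕ × ℕ × ℕ) => n % 2 ^ z.2.1 = z.1) (s := S) (t := Z)
  have hL : ∀ n ∈ S, (Finset.bipartiteAbove (fun (n : ℕ) (z : ℕ × ℕ × ℕ) => n % 2 ^ z.2.1 = z.1) Z n).card = 1 := by
    intro n hn
    rw [hS, Finset.mem_filter, Finset.mem_Ico] at hn
    rcases hpart n with h1 | ⟨z, hz, hnz⟩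
    · exact h1
    · exfalso
      obtain ⟨i1, i2⟩ := hM2 m hm z hz
      exact hn.2 (const_leaf_const K f hK hG z.1 z.2.1 z.2.2 m n (hC z hz) i1 i2 hn.1.1 hnz)
  have hR : ∀ z ∈ Z, (Finset.bipartiteBelow (fun (n : ℕ) (z : ℕ × ℕ × ℕ) => n % 2 ^ z.2.1 = z.1) S z).card = 1 := by
    intro z hz
    obtain ⟨i1, i2⟩ := hM1 m hm z hz
    obtain ⟨n, n1, n2, n3, n4⟩ := zero_leaf_exists K f z.1 z.2.1 z.2.2 (hZlt z hz) (hZ z hz) m i1
    rw [Finset.card_eq_one]
    refine ⟨n, ?_⟩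
    ext x
    simp only [Finset.mem_bipartiteBelow, hS, Finset.mem_filter, Finset.mem_Ico, Finset.mem_singleton]
    constructor
    · rintro ⟨⟨⟨x1, x2⟩, x3⟩, x4⟩
      have x5 : 2 ^ (m + z.2.2) ∣ f x := by
        by_contra hcon
        exact x3 (zero_leaf_const K f hK hG z.1 z.2.1 z.2.2 m x (hZ z hz) i1 i2 x1 x4 hcon)
      rcases lt_trichotomy x n with h | h | h
      · exact (zero_leaf_unique_aux f z.1 z.2.1 z.2.2 m x n (hZ z hz) i1 x4 n3 h (by omega) x5 n4).elim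
      · exact h
      · exact (zero_leaf_unique_aux f z.1 z.2.1 z.2.2 m n x (hZ z hz) i1 n3 x4 h (by omega) n4 x5).elim
    · rintro rfl
      exact ⟨⟨⟨n1, n2⟩, zero_leaf_nonconst K f hK hG z.1 z.2.1 z.2.2 m x (hZ z hz) i1 i2 n1 n3 n4⟩, n3⟩
  rw [Finset.sum_congr rfl hL, Finset.sum_congr rfl hR] at key
  simpa using key

end


/-- the function `f` attached to a list of pairs -/
def fL (l : List (ℕ × ℕ)) (j : ℕ) : ℕ := BL l j 0 0

theorem BL_zero (l : List (ℕ × ℕ)) (a m : ℕ) : BL l a m 0 = fL l a := by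
  simp [BL, fL]

/-- check of a zero leaf `(a, m, c)` -/
def chkZ (l : List (ℕ × ℕ)) (Q : ℕ) (z : ℕ × ℕ × ℕ) : Bool :=
  decide (1 ≤ z.2.1) && decide (z.1 < 2 ^ z.2.1) && decide (BL l z.1 z.2.1 0 % 2 ^ (z.2.1 + z.2.2) = 0) &&
  decide (BL l z.1 z.2.1 1 % 2 ^ (z.2.1 + z.2.2 + 1) = 2 ^ (z.2.1 + z.2.2)) &&
  (List.range Q).all (fun q => decide (q < 2) ||
    decide (BL l z.1 z.2.1 q % 2 ^ (z.2.1 + z.2.2 + 1 + Nat.log2 q) = 0)) &&
  decide (z.2.1 + z.2.2 + 1 ≤ (z.2.1 + 1) * Q)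

/-- check of a constant leaf `(a, m, v)` -/
def chkC (l : List (ℕ × ℕ)) (R : ℕ) (z : ℕ × ℕ × ℕ) : Bool :=
  decide (1 ≤ z.2.1) && decide (BL l z.1 z.2.1 0 % 2 ^ (z.2.2 + 1) = 2 ^ z.2.2) &&
  (List.range R).all (fun q => decide (q < 1) || decide (BL l z.1 z.2.1 q % 2 ^ (z.2.2 + 1) = 0)) &&
  decide (z.2.2 + 1 ≤ (z.2.1 + 2) * R)

theorem ZL_of_chk (l : List (ℕ × ℕ)) (hl : ∀ p ∈ l, Odd p.2) (Q : ℕ) (z : ℕ × ℕ × ℕ)
    (h : chkZ l Q z = true) : ZL (fL l) z.1 z.2.1 z.2.2 ∧ z.1 < 2 ^ z.2.1 := by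
  obtain ⟨a, m, c⟩ := z
  simp only [chkZ, Bool.and_eq_true, decide_eq_true_eq, List.all_eq_true, List.mem_range,
    Bool.or_eq_true] at h
  obtain ⟨⟨⟨⟨⟨h1, h2⟩, h3⟩, h4⟩, h5⟩, h6⟩ := h
  refine ⟨⟨?_, ?_⟩, h2⟩
  · have := Nat.dvd_of_mod_eq_zero h3
    rwa [BL_zero] at this
  · intro t e u hu
    have h7 : ∀ q, 2 ≤ q → q < Q → 2 ^ (m + c + 1 + Nat.log 2 q) ∣ BL l a m q := by
      intro q hq hqQ
      rcases h5 q hqQ with h8 | h8
      · omega
      · rw [Nat.log2_eq_log_two] at h8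
        exact Nat.dvd_of_mod_eq_zero h8
    obtain ⟨D, hD, hD2⟩ := zero_leaf l hl a m (m + c) Q h1 h4 h7 h6 t e u hu
    refine ⟨D, hD, ?_⟩
    rw [BL_zero, BL_zero] at hD2
    exact hD2

theorem CL_of_chk (l : List (ℕ × ℕ)) (hl : ∀ p ∈ l, Odd p.2) (R : ℕ) (z : ℕ × ℕ × ℕ)
    (h : chkC l R z = true) : CL (fL l) z.1 z.2.1 z.2.2 := by
  obtain ⟨a, m, v⟩ := z
  simp only [chkC, Bool.and_eq_true, decide_eq_true_eq, List.all_eq_true, List.mem_range,
    Bool.or_eq_true] at h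
  obtain ⟨⟨⟨h1, h2⟩, h3⟩, h4⟩ := h
  intro t
  have h7 : ∀ r, 1 ≤ r → r < R → 2 ^ (v + 1) ∣ BL l a m r := by
    intro q hq hqQ
    rcases h3 q hqQ with h8 | h8
    · omega
    · exact Nat.dvd_of_mod_eq_zero h8
  have := const_leaf l hl a m v R h1 h2 h7 h4 t
  rwa [BL_zero] at this

/-- the leaves cover every residue class modulo `2^M0`, zero leaves at most once off the constant ones -/
def chkP (Z C : List (ℕ × ℕ × ℕ)) (M0 : ℕ) : Bool :=
  (List.range (2 ^ M0)).all (fun n =>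
    decide ((Z.filter (fun z => decide (n % 2 ^ z.2.1 = z.1))).length = 1) ||
    C.any (fun z => decide (n % 2 ^ z.2.1 = z.1))) &&
  Z.all (fun z => decide (z.2.1 ≤ M0)) && C.all (fun z => decide (z.2.1 ≤ M0))

theorem part_of_chk (Z C : List (ℕ × ℕ × ℕ)) (hnd : Z.Nodup) (M0 : ℕ) (h : chkP Z C M0 = true) (n : ℕ) :
    (Z.toFinset.filter (fun z => n % 2 ^ z.2.1 = z.1)).card = 1 ∨ ∃ z ∈ C, n % 2 ^ z.2.1 = z.1 := by
  simp only [chkP, Bool.and_eq_true, decide_eq_true_eq, List.all_eq_true, List.mem_range,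
    Bool.or_eq_true, List.any_eq_true] at h
  obtain ⟨⟨h1, h2⟩, h3⟩ := h
  have h4 := h1 (n % 2 ^ M0) (Nat.mod_lt _ (by positivity))
  have hmod : ∀ s, s ≤ M0 → n % 2 ^ M0 % 2 ^ s = n % 2 ^ s := fun s hs =>
    Nat.mod_mod_of_dvd _ (pow_dvd_pow 2 hs)
  rcases h4 with h4 | ⟨z, hz, hz2⟩
  · left
    have h5 : Z.toFinset.filter (fun z => n % 2 ^ z.2.1 = z.1)
        = (Z.filter (fun z => decide (n % 2 ^ M0 % 2 ^ z.2.1 = z.1))).toFinset := by
      ext z
      simp only [Finset.mem_filter, List.mem_toFinset, List.mem_filter, decide_eq_true_eq]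
      constructor
      · rintro ⟨hz, hz2⟩
        exact ⟨hz, by rw [hmod _ (h2 z hz)]; exact hz2⟩
      · rintro ⟨hz, hz2⟩
        exact ⟨hz, by rw [hmod _ (h2 z hz)] at hz2; exact hz2⟩
    rw [h5, List.toFinset_card_of_nodup (hnd.filter _), h4]
  · right
    exact ⟨z, hz, by rw [hmod _ (h3 z hz)] at hz2; exact hz2⟩

theorem fO_eq (h : ℕ) (l : List (ℕ × ℕ))
    (hl : l = (List.range (h + 1)).map (fun s => ((2 * h + 1).choose (2 * s + 1), 2 * s + 1))) (j : ℕ) :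
    fO h j = fL l j := by
  subst hl
  unfold fO fL BL
  rw [List.map_map]
  simp only [Function.comp_def, pow_zero, mul_one]
  rw [Finset.sum_eq_multiset_sum]
  simp [Finset.range, Multiset.range]

/-- the final assembly: from the certificates to the value of `μ_K` -/
theorem isMu_of_cert (h : ℕ) (l : List (ℕ × ℕ))
    (hl : l = (List.range (h + 1)).map (fun s => ((2 * h + 1).choose (2 * s + 1), 2 * s + 1)))
    (Z C : List (ℕ × ℕ × ℕ)) (hnd : Z.Nodup) (M0 Q : ℕ)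
    (hZ : Z.all (chkZ l Q) = true) (hC : C.all (chkC l Q) = true) (hP : chkP Z C M0 = true)
    (hsize : (Z.all (fun z => decide (z.2.2 ≤ 100)) && C.all (fun z => decide (z.2.2 ≤ 100))) = true)
    (hM0 : M0 ≤ 8) : IsMu (2 * h + 1) Z.length := by
  have hodd : ∀ p ∈ l, Odd p.2 := by
    subst hl
    intro p hp
    simp only [List.mem_map, List.mem_range] at hp
    obtain ⟨s, -, rfl⟩ := hp
    exact ⟨s, rfl⟩
  rw [List.all_eq_true] at hZ hC
  simp only [Bool.and_eq_true, List.all_eq_true, decide_eq_true_eq] at hsize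
  have hpos : ∀ m : ℕ, 8 ≤ m → m + 100 + 1 ≤ 2 ^ m := by
    intro m hm
    induction m, hm using Nat.le_induction with
    | base => norm_num
    | succ m hm ih => rw [pow_succ]; omega
  have hPZ : ∀ z ∈ Z, z.2.1 ≤ M0 := by
    simp only [chkP, Bool.and_eq_true, decide_eq_true_eq, List.all_eq_true] at hP
    exact hP.1.2
  have hPC : ∀ z ∈ C, z.2.1 ≤ M0 := by
    simp only [chkP, Bool.and_eq_true, decide_eq_true_eq, List.all_eq_true] at hP
    exact hP.2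
  have hG : ∀ j, (2 * h + 1).factorial * Nat.stirlingSecond j (2 * h + 1) ≡ fL l j [MOD 2 ^ j] := by
    intro j
    have := explicit_mod h j
    rw [fO_eq h l hl j] at this
    have h2 : (((2 * h + 1).factorial * Nat.stirlingSecond j (2 * h + 1) : ℕ) : ℤ) ≡ ((fL l j : ℕ) : ℤ)
        [ZMOD ((2 ^ j : ℕ) : ℤ)] := by
      push_cast at this ⊢
      exact this
    exact Int.natCast_modEq_iff.1 h2
  have := count (2 * h + 1) (fL l) (by omega) hG Z.toFinset C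
    (fun z hz => (ZL_of_chk l hodd Q z (hZ z (List.mem_toFinset.1 hz))).1)
    (fun z hz => CL_of_chk l hodd Q z (hC z hz))
    (fun z hz => (ZL_of_chk l hodd Q z (hZ z (List.mem_toFinset.1 hz))).2)
    (part_of_chk Z C hnd M0 hP) 8
    (fun m hm z hz => by
      have hz' := List.mem_toFinset.1 hz
      have i1 := hPZ z hz'
      have i2 := hsize.1 z hz'
      have i3 := hpos m hm
      constructor <;> omega)
    (fun m hm z hz => by
      have i1 := hPC z hz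
      have i2 := hsize.2 z hz
      have i3 := hpos m hm
      constructor <;> omega)
  rwa [List.toFinset_card_of_nodup hnd] at this

/-- the pairs `(C(69,i), i)`, `i` odd -/
def l69 : List (ℕ × ℕ) := [
  (69, 1), (52394, 3), (11238513, 5), (1078897248, 7), (56672074888, 9), (1823810410032, 11),
   (38650751381832, 13), (566877686933536, 15), (5964720367660956, 17), (46252743903616536, 19),
   (269807672771096460, 21), (1202936975833188960, 23), (4150132566624501912, 25),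
   (11185257572725865552, 27), (23720460024918645912, 29), (39789158751476438304, 31),
   (52976853413424121454, 33), (56093138908331422716, 35), (47249626017378270486, 37),
   (31627280033224861216, 39), (16777886359088798328, 41), (7023301266595310928, 43),
   (2305629203680278840, 45), (588671286046028640, 47), (115631859759041340, 49),
   (17231414395464984, 51), (1913212193400684, 53), (154603005527328, 55), (8815083648488, 57),
   (340032449328, 59), (8361453672, 61), (119877472, 63), (864501, 65), (2346, 67), (1, 69)]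

/-- zero leaves `(a, m, c)` for `k = 69` -/
def Z69 : List (ℕ × ℕ × ℕ) := [
  (0, 5, 62), (1, 5, 61), (2, 5, 61), (3, 5, 62), (4, 5, 63), (5, 5, 61), (6, 5, 61), (7, 5, 63),
   (8, 5, 62), (9, 5, 61), (10, 5, 61), (11, 5, 62), (12, 5, 64), (13, 5, 61), (14, 5, 61),
   (15, 5, 64), (16, 5, 62), (17, 5, 61), (18, 5, 61), (19, 5, 62), (20, 5, 63), (21, 5, 61),
   (22, 5, 61), (23, 5, 63), (24, 5, 62), (25, 5, 61), (26, 5, 61), (27, 5, 62), (29, 5, 61),
   (30, 5, 61), (60, 7, 66), (63, 7, 66), (124, 7, 66), (127, 7, 66)]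

/-- constant leaves `(a, m, v)` for `k = 69` -/
def C69 : List (ℕ × ℕ × ℕ) := [
  (28, 6, 70), (31, 6, 70)]

theorem l69_eq : l69 = (List.range (34 + 1)).map (fun s => ((2 * 34 + 1).choose (2 * s + 1), 2 * s + 1)) := by
  decide +kernel

theorem mu_69 : IsMu 69 34 :=
  isMu_of_cert 34 l69 l69_eq Z69 C69 (by decide +kernel) 7 12 (by decide +kernel) (by decide +kernel)
    (by decide +kernel) (by decide +kernel) (by norm_num)

/-- the pairs `(C(71,i), i)`, `i` odd -/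
def l71 : List (ℕ × ℕ) := [
  (71, 1), (57155, 3), (13019909, 5), (1329890705, 7), (74473879480, 9), (2560547383576, 11),
   (58104729088840, 13), (914734449370024, 15), (10358022441395860, 17), (86680293062207460, 19),
   (547324136192795676, 21), (2650087220696342700, 23), (9964327949818248552, 25),
   (29381992672540989320, 27), (68461490315822108120, 29), (126764178842844806648, 31),
   (187265264199657100730, 33), (221256270138418389602, 35), (209296471752557936110, 37),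
   (158455223553556008310, 39), (95846086442150951368, 41), (46171702771135840360, 43),
   (17629195603524593592, 45), (5300174441392685400, 47), (1243918491347262900, 49),
   (225368761961739396, 51), (31074067324187580, 53), (3201570572795084, 55),
   (240719591939480, 57), (12802736917880, 59), (461738052776, 61), (10639125640, 63),
   (143218999, 65), (971635, 67), (2485, 69), (1, 71)]

/-- zero leaves `(a, m, c)` for `k = 71` -/
def Z71 : List (ℕ × ℕ × ℕ) := [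
  (0, 5, 64), (1, 5, 63), (2, 5, 65), (3, 5, 62), (4, 5, 64), (5, 5, 64), (6, 5, 66), (7, 5, 62),
   (8, 5, 64), (9, 5, 63), (10, 5, 65), (11, 5, 62), (12, 5, 64), (15, 5, 62), (16, 5, 64),
   (17, 5, 63), (18, 5, 65), (19, 5, 62), (20, 5, 64), (21, 5, 64), (22, 5, 66), (23, 5, 62),
   (24, 5, 64), (25, 5, 63), (26, 5, 65), (27, 5, 62), (28, 5, 64), (29, 5, 65), (30, 5, 67),
   (31, 5, 62), (45, 8, 68), (173, 8, 68)]

/-- constant leaves `(a, m, v)` for `k = 71` -/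
def C71 : List (ℕ × ℕ × ℕ) := [
  (13, 6, 71), (14, 6, 73), (109, 7, 73), (110, 7, 75), (46, 8, 79), (174, 8, 77)]

theorem l71_eq : l71 = (List.range (35 + 1)).map (fun s => ((2 * 35 + 1).choose (2 * s + 1), 2 * s + 1)) := by
  decide +kernel

theorem mu_71 : IsMu 71 32 :=
  isMu_of_cert 35 l71 l71_eq Z71 C71 (by decide +kernel) 8 13 (by decide +kernel) (by decide +kernel)
    (by decide +kernel) (by decide +kernel) (by norm_num)

/-- `μ_69 = 34` and `μ_71 = 32`; hence `k ↦ μ_k` is not non-decreasing. -/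
theorem result :
    IsMu 69 34 ∧ IsMu 71 32 ∧
      ¬ ∀ k k' μ μ' : ℕ, 1 ≤ k → k < k' → IsMu k μ → IsMu k' μ' → μ ≤ μ' := by
  refine ⟨mu_69, mu_71, fun h => ?_⟩
  have := h 69 71 34 32 (by norm_num) (by norm_num) mu_69 mu_71
  omega

end Pool.Agent.Results.MP_6194d2_nt.NotMonotone
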